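import Mathlib

set_option linter.unusedSectionVars false

/-!
# The maximum of `i(G) i(Ḡ)` over `n`-vertex graphs

The formula `⌊(n+3)²/16⌋` for odd `n` fails for infinitely many odd `n`, in both odd residue
classes modulo 4: for every `b ≥ 1` and `n = (2b+1)²` or `n = (2b+1)(2b+3)`, some graph `G` on
`n` vertices, such that neither `G` nor its complement has an isolated vertex, has
`i(G) i(Ḡ) ≥ ⌊(n+3)²/16⌋ + 1`.
-/

namespace Pool.Agent.Results.MP_530eb6_co.OddOrders

open Finset

/-- The independent domination number: the least size of a maximal (under inclusion) independent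
set. -/
noncomputable def indDom {V : Type} (G : SimpleGraph V) : ℕ :=
  sInf {k : ℕ | ∃ S : Finset V, Maximal (fun T : Finset V => G.IsIndepSet (T : Set V)) S ∧
    S.card = k}

/-- `f n` is the maximum of `i(G) i(Ḡ)` over the graphs `G` on `n` vertices. -/
noncomputable def f (n : ℕ) : ℕ :=
  sSup {m : ℕ | ∃ (V : Type) (_ : Fintype V) (G : SimpleGraph V),
    Fintype.card V = n ∧ m = indDom G * indDom Gᶜ}

theorem indDom_le {V : Type} [Fintype V] (G : SimpleGraph V) : indDom G ≤ Fintype.card V := by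
  unfold indDom
  by_cases h : {k : ℕ | ∃ S : Finset V, Maximal (fun T : Finset V => G.IsIndepSet (T : Set V)) S ∧
    S.card = k}.Nonempty
  · obtain ⟨S, _, hS⟩ := Nat.sInf_mem h
    rw [← hS]
    exact Finset.card_le_univ S
  · rw [Set.not_nonempty_iff_eq_empty] at h
    rw [h]
    simp

theorem le_f {V : Type} [Fintype V] (G : SimpleGraph V) :
    indDom G * indDom Gᶜ ≤ f (Fintype.card V) := by
  apply le_csSup
  · refine ⟨Fintype.card V * Fintype.card V, ?_⟩
    rintro m ⟨W, _, H, hW, rfl⟩
    rw [← hW]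
    exact Nat.mul_le_mul (indDom_le H) (indDom_le Hᶜ)
  · exact ⟨V, inferInstance, G, rfl, rfl⟩

theorem le_indDom {V : Type} [Fintype V] {G : SimpleGraph V} {k : ℕ}
    (h : ∀ S : Finset V, Maximal (fun T : Finset V => G.IsIndepSet (T : Set V)) S → k ≤ S.card) :
    k ≤ indDom G := by
  classical
  have hne : {k : ℕ | ∃ S : Finset V, Maximal (fun T : Finset V => G.IsIndepSet (T : Set V)) S ∧
    S.card = k}.Nonempty := by
    have hfin : {S : Finset V | G.IsIndepSet (S : Set V)}.Finite := Set.toFinite _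
    have hemp : {S : Finset V | G.IsIndepSet (S : Set V)}.Nonempty := ⟨∅, by
      show G.IsIndepSet ((∅ : Finset V) : Set V)
      simp [SimpleGraph.IsIndepSet]⟩
    obtain ⟨S, hS⟩ := hfin.exists_maximal hemp
    exact ⟨S.card, S, hS, rfl⟩
  obtain ⟨S, hS, hS'⟩ := Nat.sInf_mem hne
  unfold indDom
  rw [← hS']
  exact h S hS

/-- If `X` is independent, its complement is a clique, every vertex outside `X` has at least `m`
non-neighbours in `X`, and `|X| > m`, then every maximal independent set has at least `m + 1`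
elements. -/
theorem split_bound {V : Type} [Fintype V] [DecidableEq V] (G : SimpleGraph V) (X : Finset V)
    (hX : ∀ x ∈ X, ∀ x' ∈ X, ¬ G.Adj x x') (hY : ∀ y, y ∉ X → ∀ y', y' ∉ X → y ≠ y' → G.Adj y y')
    (m : ℕ) (N : V → Finset V) (hN : ∀ y, y ∉ X → ∀ x ∈ N y, x ∈ X ∧ ¬ G.Adj x y)
    (hNc : ∀ y, y ∉ X → m ≤ (N y).card) (hXc : m + 1 ≤ X.card) : m + 1 ≤ indDom G := by
  apply le_indDom
  intro S hS
  have hind : ∀ u ∈ S, ∀ v ∈ S, u ≠ v → ¬ G.Adj u v := by
    intro u hu v hv huv
    exact hS.prop (Finset.mem_coe.2 hu) (Finset.mem_coe.2 hv) huv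
  -- a vertex not in `S` has a neighbour in `S`
  have hmax : ∀ v, (∀ u ∈ S, ¬ G.Adj u v) → v ∈ S := by
    intro v hv
    by_contra hvS
    have hins : G.IsIndepSet ((insert v S : Finset V) : Set V) := by
      intro a ha b hb hab
      rw [Finset.mem_coe, Finset.mem_insert] at ha hb
      rcases ha with rfl | ha <;> rcases hb with rfl | hb
      · exact absurd rfl hab
      · exact fun h => hv b hb h.symm
      · exact hv a ha
      · exact hind a ha b hb hab
    have := hS.le_of_ge hins (Finset.subset_insert v S)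
    exact hvS (this (Finset.mem_insert_self v S))
  by_cases hy : ∃ y ∈ S, y ∉ X
  · obtain ⟨y, hyS, hyX⟩ := hy
    have hsub : insert y (N y) ⊆ S := by
      intro x hx
      rw [Finset.mem_insert] at hx
      rcases hx with rfl | hx
      · exact hyS
      · obtain ⟨hxX, hxy⟩ := hN y hyX x hx
        apply hmax
        intro u hu hux
        by_cases huX : u ∈ X
        · exact hX u huX x hxX hux
        · by_cases huy : u = y
          · rw [huy] at hux
            exact hxy hux.symm
          · exact hind u hu y hyS huy (hY u huX y hyX huy)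
    have hynot : y ∉ N y := fun h => hyX (hN y hyX y h).1
    calc m + 1 ≤ (N y).card + 1 := Nat.add_le_add_right (hNc y hyX) 1
      _ = (insert y (N y)).card := (Finset.card_insert_of_notMem hynot).symm
      _ ≤ S.card := Finset.card_le_card hsub
  · push Not at hy
    have hsub : X ⊆ S := by
      intro x hx
      apply hmax
      intro u hu hux
      exact hX u (hy u hu) x hx hux
    exact hXc.trans (Finset.card_le_card hsub)

section Construction

variable (a b g t : ℕ) [NeZero g]

/-- The split graph: vertices `(i, s)` with `i < a` form an independent set, those with `i ≥ a`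
form a clique, and `(i, s)` (`i < a`) is adjacent to `(j, r)` (`j ≥ a`) iff `r - s` lies in the
interval `{0, …, t-1}` of `ZMod g`. -/
def G : SimpleGraph (Fin (a + b) × ZMod g) where
  Adj u v := (u.1.val < a ∧ a ≤ v.1.val ∧ (v.2 - u.2).val < t) ∨
    (v.1.val < a ∧ a ≤ u.1.val ∧ (u.2 - v.2).val < t) ∨
    (a ≤ u.1.val ∧ a ≤ v.1.val ∧ u ≠ v)
  symm := ⟨by
    rintro u v (h | h | ⟨h1, h2, h3⟩)
    · exact Or.inr (Or.inl h)
    · exact Or.inl h
    · exact Or.inr (Or.inr ⟨h2, h1, h3.symm⟩)⟩
  loopless := ⟨by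
    rintro u (⟨h1, h2, _⟩ | ⟨h1, h2, _⟩ | ⟨_, _, h3⟩)
    · omega
    · omega
    · exact h3 rfl⟩

theorem card_lt (ht : t ≤ g) : (univ.filter fun z : ZMod g => z.val < t).card = t := by
  have h := Finset.card_image_of_injective (univ.filter fun z : ZMod g => z.val < t)
    (ZMod.val_injective g)
  rw [← h]
  have h2 : (univ.filter fun z : ZMod g => z.val < t).image ZMod.val = Finset.range t := by
    ext k
    simp only [Finset.mem_image, Finset.mem_filter, Finset.mem_univ, true_and, Finset.mem_range]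
    constructor
    · rintro ⟨z, hz, rfl⟩
      exact hz
    · intro hk
      exact ⟨(k : ZMod g), by rw [ZMod.val_cast_of_lt (lt_of_lt_of_le hk ht)]; exact hk,
        ZMod.val_cast_of_lt (lt_of_lt_of_le hk ht)⟩
  rw [h2, Finset.card_range]

theorem card_ge (ht : t ≤ g) : (univ.filter fun z : ZMod g => ¬ z.val < t).card = g - t := by
  have h := Finset.card_filter_add_card_filter_not (s := (univ : Finset (ZMod g)))
    (fun z : ZMod g => z.val < t)
  rw [card_lt g t ht, Finset.card_univ, ZMod.card] at h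
  omega

theorem card_sub_left (P : ZMod g → Prop) [DecidablePred P] (r : ZMod g) :
    (univ.filter fun s : ZMod g => P (r - s)).card = (univ.filter P).card := by
  apply Finset.card_bij (fun s _ => r - s)
  · intro s hs
    simpa using hs
  · intro s _ s' _ h
    exact sub_right_injective h
  · intro z hz
    refine ⟨r - z, ?_, by ring⟩
    simp only [Finset.mem_filter, Finset.mem_univ, true_and] at hz ⊢
    rw [sub_sub_cancel]
    exact hz

theorem card_sub_right (P : ZMod g → Prop) [DecidablePred P] (r : ZMod g) :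
    (univ.filter fun s : ZMod g => P (s - r)).card = (univ.filter P).card := by
  apply Finset.card_bij (fun s _ => s - r)
  · intro s hs
    simpa using hs
  · intro s _ s' _ h
    exact sub_left_injective h
  · intro z hz
    refine ⟨z + r, ?_, by ring⟩
    simp only [Finset.mem_filter, Finset.mem_univ, true_and] at hz ⊢
    rw [add_sub_cancel_right]
    exact hz

theorem card_small : (univ.filter fun i : Fin (a + b) => i.val < a).card = a := by
  rw [Fin.card_filter_val_lt]
  simp

theorem card_big : (univ.filter fun i : Fin (a + b) => a ≤ i.val).card = b := by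
  have h := Finset.card_filter_add_card_filter_not (s := (univ : Finset (Fin (a + b))))
    (fun i : Fin (a + b) => i.val < a)
  rw [card_small, Finset.card_univ, Fintype.card_fin] at h
  simp only [not_lt] at h
  omega

theorem indDom_G (ha : 0 < a) (ht : 0 < t) (htg : t < g) :
    a * (g - t) + 1 ≤ indDom (G a b g t) := by
  classical
  set I : Finset (Fin (a + b)) := univ.filter fun i : Fin (a + b) => i.val < a with hI
  have hIc : I.card = a := card_small a b
  apply split_bound (G a b g t) (I ×ˢ (univ : Finset (ZMod g)))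
    (N := fun y => I ×ˢ (univ.filter fun s : ZMod g => ¬ (y.2 - s).val < t))
  · rintro ⟨i, s⟩ hx ⟨j, r⟩ hx' h
    simp only [hI, Finset.mem_product, Finset.mem_filter, Finset.mem_univ, true_and,
      and_true] at hx hx'
    rcases h with ⟨h1, h2, _⟩ | ⟨h1, h2, _⟩ | ⟨h1, h2, _⟩ <;> simp only at h1 h2 <;> omega
  · rintro ⟨i, s⟩ hx ⟨j, r⟩ hx' h
    simp only [hI, Finset.mem_product, Finset.mem_filter, Finset.mem_univ, true_and,
      and_true, not_lt] at hx hx'
    exact Or.inr (Or.inr ⟨hx, hx', h⟩)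
  · rintro ⟨j, r⟩ hy ⟨i, s⟩ hx
    simp only [hI, Finset.mem_product, Finset.mem_filter, Finset.mem_univ, true_and,
      and_true, not_lt] at hy hx
    refine ⟨?_, ?_⟩
    · simp only [hI, Finset.mem_product, Finset.mem_filter, Finset.mem_univ, and_true, true_and]
      exact hx.1
    · rintro (⟨h1, h2, h3⟩ | ⟨h1, h2, h3⟩ | ⟨h1, h2, h3⟩)
      · simp only at h3
        omega
      · simp only at h1
        omega
      · simp only at h1
        omega
  · rintro ⟨j, r⟩ _
    simp only [Finset.card_product]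
    rw [hIc, card_sub_left g (fun z => ¬ z.val < t) r, card_ge g t htg.le]
  · rw [Finset.card_product, hIc, Finset.card_univ, ZMod.card]
    have : a * (g - t) + a * t = a * g := by rw [← mul_add]; congr 1; omega
    have h2 : 1 ≤ a * t := Nat.mul_pos ha ht
    omega

theorem indDom_compl_G (hb : 0 < b) (htg : t < g) :
    b * t + 1 ≤ indDom (G a b g t)ᶜ := by
  classical
  set J : Finset (Fin (a + b)) := univ.filter fun i : Fin (a + b) => a ≤ i.val with hJ
  have hJc : J.card = b := card_big a b
  apply split_bound (G a b g t)ᶜ (J ×ˢ (univ : Finset (ZMod g)))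
    (N := fun y => J ×ˢ (univ.filter fun s : ZMod g => (s - y.2).val < t))
  · rintro ⟨i, s⟩ hx ⟨j, r⟩ hx' h
    simp only [hJ, Finset.mem_product, Finset.mem_filter, Finset.mem_univ, true_and,
      and_true] at hx hx'
    rw [SimpleGraph.compl_adj] at h
    exact h.2 (Or.inr (Or.inr ⟨hx, hx', h.1⟩))
  · rintro ⟨i, s⟩ hx ⟨j, r⟩ hx' h
    simp only [hJ, Finset.mem_product, Finset.mem_filter, Finset.mem_univ, true_and,
      and_true, not_le] at hx hx'
    rw [SimpleGraph.compl_adj]
    refine ⟨h, ?_⟩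
    rintro (⟨h1, h2, _⟩ | ⟨h1, h2, _⟩ | ⟨h1, h2, _⟩) <;> simp only at h1 h2 <;> omega
  · rintro ⟨j, r⟩ hy ⟨i, s⟩ hx
    simp only [hJ, Finset.mem_product, Finset.mem_filter, Finset.mem_univ, true_and,
      and_true, not_le] at hy hx
    refine ⟨?_, ?_⟩
    · simp only [hJ, Finset.mem_product, Finset.mem_filter, Finset.mem_univ, and_true, true_and]
      exact hx.1
    · rw [SimpleGraph.compl_adj]
      rintro ⟨_, h⟩
      exact h (Or.inr (Or.inl ⟨hy, hx.1, hx.2⟩))
  · rintro ⟨j, r⟩ _
    simp only [Finset.card_product]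
    rw [hJc, card_sub_right g (fun z => z.val < t) r, card_lt g t htg.le]
  · rw [Finset.card_product, hJc, Finset.card_univ, ZMod.card]
    have : b * (g - t) + b * t = b * g := by rw [← mul_add]; congr 1; omega
    have h2 : 1 ≤ b * (g - t) := Nat.mul_pos hb (by omega)
    omega

/-- no vertex of `G` is isolated. -/
theorem no_isolated (hb : 0 < b) (hg : 1 < g) (ht : 0 < t) (u : Fin (a + b) × ZMod g) :
    ∃ v, (G a b g t).Adj u v := by
  obtain ⟨i, s⟩ := u
  by_cases hi : i.val < a
  · refine ⟨(⟨a, by omega⟩, s), Or.inl ⟨hi, le_rfl, ?_⟩⟩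
    simp only [sub_self]
    rw [ZMod.val_zero]
    exact ht
  · have : Fact (1 < g) := ⟨hg⟩
    refine ⟨(i, s + 1), Or.inr (Or.inr ⟨not_lt.1 hi, not_lt.1 hi, ?_⟩)⟩
    intro h
    have h2 : s = s + 1 := congrArg Prod.snd h
    have h3 : (1 : ZMod g) = 0 := by
      have := h2
      rw [left_eq_add] at this
      exact this
    exact one_ne_zero h3

theorem no_isolated_compl (ha : 0 < a) (hg : 1 < g) (ht : t < g) (u : Fin (a + b) × ZMod g) :
    ∃ v, (G a b g t)ᶜ.Adj u v := by
  obtain ⟨i, s⟩ := u
  have : Fact (1 < g) := ⟨hg⟩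
  by_cases hi : i.val < a
  · refine ⟨(i, s + 1), ?_⟩
    rw [SimpleGraph.compl_adj]
    refine ⟨?_, ?_⟩
    · intro h
      have h2 : s = s + 1 := congrArg Prod.snd h
      rw [left_eq_add] at h2
      exact one_ne_zero h2
    · rintro (⟨h1, h2, _⟩ | ⟨h1, h2, _⟩ | ⟨h1, h2, _⟩) <;> simp only at h1 h2 <;> omega
  · refine ⟨(⟨0, by omega⟩, s - ((g - 1 : ℕ) : ZMod g)), ?_⟩
    rw [SimpleGraph.compl_adj]
    refine ⟨?_, ?_⟩
    · intro h
      have h2 : i.val = 0 := congrArg (fun p : Fin (a + b) × ZMod g => p.1.val) h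
      omega
    · rintro (⟨h1, h2, _⟩ | ⟨h1, h2, h3⟩ | ⟨h1, h2, _⟩)
      · exact hi h1
      · simp only [sub_sub_cancel] at h3
        rw [ZMod.val_cast_of_lt (by omega)] at h3
        omega
      · simp only at h2
        omega

end Construction

/-- General lower bound: for `a, b ≥ 1` and `0 < t < g` there is a graph on `(a + b) g` vertices,
without isolated vertices in it or in its complement, with
`i(G) i(Ḡ) ≥ (a (g - t) + 1) (b t + 1)`. -/
theorem general {a b g t : ℕ} (ha : 0 < a) (hb : 0 < b) (ht : 0 < t) (htg : t < g) :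
    ∃ (V : Type) (_ : Fintype V) (G : SimpleGraph V), Fintype.card V = (a + b) * g ∧
      (∀ u, ∃ v, G.Adj u v) ∧ (∀ u, ∃ v, Gᶜ.Adj u v) ∧
      (a * (g - t) + 1) * (b * t + 1) ≤ indDom G * indDom Gᶜ := by
  have : NeZero g := ⟨by omega⟩
  refine ⟨Fin (a + b) × ZMod g, inferInstance, G a b g t, ?_, ?_, ?_, ?_⟩
  · rw [Fintype.card_prod, Fintype.card_fin, ZMod.card]
  · exact no_isolated a b g t hb (by omega) ht
  · exact no_isolated_compl a b g t ha (by omega) htg
  · exact Nat.mul_le_mul (indDom_G a b g t ha ht htg) (indDom_compl_G a b g t hb htg)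

/-- `n` is a counterexample order, with a graph such that neither it nor its complement has an
isolated vertex. -/
def Counter (n : ℕ) : Prop :=
  ∃ (V : Type) (_ : Fintype V) (G : SimpleGraph V), Fintype.card V = n ∧
    (∀ u, ∃ v, G.Adj u v) ∧ (∀ u, ∃ v, Gᶜ.Adj u v) ∧
    (n + 3) ^ 2 / 16 < indDom G * indDom Gᶜ

theorem counter_one (b : ℕ) (hb : 1 ≤ b) : Counter ((2 * b + 1) ^ 2) := by
  obtain ⟨V, hV, G, h1, h2, h3, h4⟩ := general (a := b + 1) (b := b) (g := 2 * b + 1) (t := b)
    (by omega) (by omega) (by omega) (by omega)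
  refine ⟨V, hV, G, ?_, h2, h3, lt_of_lt_of_le ?_ h4⟩
  · rw [h1]; ring
  · have e1 : 2 * b + 1 - b = b + 1 := by omega
    rw [e1, Nat.div_lt_iff_lt_mul (by norm_num)]
    nlinarith [Nat.zero_le b]

theorem counter_two (b : ℕ) (hb : 1 ≤ b) : Counter ((2 * b + 1) * (2 * b + 3)) := by
  obtain ⟨V, hV, G, h1, h2, h3, h4⟩ := general (a := b + 1) (b := b) (g := 2 * b + 3) (t := b + 1)
    (by omega) (by omega) (by omega) (by omega)
  refine ⟨V, hV, G, ?_, h2, h3, lt_of_lt_of_le ?_ h4⟩
  · rw [h1]; ring
  · have e1 : 2 * b + 3 - (b + 1) = b + 2 := by omega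
    rw [e1, Nat.div_lt_iff_lt_mul (by norm_num)]
    nlinarith [Nat.zero_le b]

theorem Counter.lt_f {n : ℕ} (h : Counter n) : (n + 3) ^ 2 / 16 < f n := by
  obtain ⟨V, _, G, rfl, _, _, h4⟩ := h
  exact lt_of_lt_of_le h4 (le_f G)

/-- **Answer (NO).** For every `b ≥ 1` the odd orders `n = (2b+1)²` and `n = (2b+1)(2b+3)` carry
graphs, without isolated vertices in them or in their complements, with
`i(G) i(Ḡ) > ⌊(n+3)²/16⌋`; so the proposed formula for `f n` fails for infinitely many `n ≡ 1` and
for infinitely many `n ≡ 3 (mod 4)`. -/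
theorem result :
    (∀ b : ℕ, 1 ≤ b → Counter ((2 * b + 1) ^ 2) ∧ Counter ((2 * b + 1) * (2 * b + 3))) ∧
    {n : ℕ | n % 4 = 1 ∧ (n + 3) ^ 2 / 16 < f n}.Infinite ∧
    {n : ℕ | n % 4 = 3 ∧ (n + 3) ^ 2 / 16 < f n}.Infinite ∧
    ¬ (∀ n : ℕ, 4 ≤ n → f n = if Even n then (n + 4) ^ 2 / 16 else (n + 3) ^ 2 / 16) := by
  refine ⟨fun b hb => ⟨counter_one b hb, counter_two b hb⟩, ?_, ?_, ?_⟩
  · apply Set.infinite_of_injective_forall_mem (f := fun k : ℕ => (2 * (k + 1) + 1) ^ 2)
    · intro k l hkl
      simp only at hkl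
      have := Nat.pow_left_injective (n := 2) (by norm_num) hkl
      omega
    · intro k
      refine ⟨?_, (counter_one (k + 1) (by omega)).lt_f⟩
      have : (2 * (k + 1) + 1) ^ 2 = 4 * ((k + 1) * (k + 1) + (k + 1)) + 1 := by ring
      omega
  · apply Set.infinite_of_injective_forall_mem
      (f := fun k : ℕ => (2 * (k + 1) + 1) * (2 * (k + 1) + 3))
    · intro k l hkl
      simp only at hkl
      have h : (2 * (k + 1) + 2) ^ 2 = (2 * (l + 1) + 2) ^ 2 := by nlinarith
      have := Nat.pow_left_injective (n := 2) (by norm_num) h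
      omega
    · intro k
      refine ⟨?_, (counter_two (k + 1) (by omega)).lt_f⟩
      have : (2 * (k + 1) + 1) * (2 * (k + 1) + 3) =
        4 * ((k + 1) * (k + 1) + 2 * (k + 1)) + 3 := by ring
      omega
  · intro h
    have h9 := h 9 (by norm_num)
    have h9' := (counter_one 1 le_rfl).lt_f
    have hodd : ¬ Even 9 := by decide
    rw [if_neg hodd] at h9
    norm_num at h9 h9'
    omega

end Pool.Agent.Results.MP_530eb6_co.OddOrders
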